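import Mathlib
/-!
# A basis with exactly two ordered representations outside a very small set
-/

set_option autoImplicit false

open Finset
open scoped Pointwise

namespace Pool.Agent.Y940.EX

/-- `r_A(n)` -/
noncomputable def rep (A : Set ℕ) (n : ℕ) : ℕ :=
  {p : ℕ × ℕ | p.1 ∈ A ∧ p.2 ∈ A ∧ p.1 + p.2 = n}.ncard

theorem rep_finite (A : Set ℕ) (n : ℕ) :
    {p : ℕ × ℕ | p.1 ∈ A ∧ p.2 ∈ A ∧ p.1 + p.2 = n}.Finite := by
  refine (Set.finite_Iic ((n, n) : ℕ × ℕ)).subset ?_
  rintro ⟨a, b⟩ ⟨_, _, h⟩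
  simp only at h
  exact ⟨by show a ≤ n; omega, by show b ≤ n; omega⟩

/-- the square root of the modulus -/
def m : ℕ → ℕ
  | 0 => 1
  | k + 1 => m k * 2 ^ (k + 1)

theorem m_pos (k : ℕ) : 0 < m k := by
  induction k with
  | zero => exact Nat.one_pos
  | succ k ih => exact Nat.mul_pos ih (by positivity)

theorem m_mono : Monotone m := monotone_nat_of_le_succ fun k =>
  Nat.le_mul_of_pos_right _ (by positivity)

/-- the first set: digits below `2 ^ (k + 1)` -/
def P : ℕ → Finset ℕ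
  | 0 => {0}
  | k + 1 => P k + (range (2 ^ (k + 1))).image (fun d => d * m k ^ 2)

/-- the second set: digits divisible by `2 ^ (k + 1)` -/
def Q : ℕ → Finset ℕ
  | 0 => {0}
  | k + 1 => Q k + (range (2 ^ (k + 1))).image (fun d => d * (2 ^ (k + 1) * m k ^ 2))

/-- every `n < m k ^ 2` is a unique sum -/
theorem exists_sum (k : ℕ) : ∀ n < m k ^ 2, ∃ p ∈ P k, ∃ q ∈ Q k, p + q = n := by
  induction k with
  | zero =>
    intro n hn
    have : n = 0 := by
      have : m 0 = 1 := rfl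
      rw [this] at hn
      omega
    exact ⟨0, by simp [P], 0, by simp [Q], this.symm⟩
  | succ k ih =>
    intro n hn
    have hM : 0 < m k ^ 2 := pow_pos (m_pos k) 2
    set g := 2 ^ (k + 1) with hg
    have hg0 : 0 < g := by positivity
    have hm : m (k + 1) ^ 2 = m k ^ 2 * (g * g) := by
      show (m k * 2 ^ (k + 1)) ^ 2 = _
      rw [hg]; ring
    obtain ⟨p, hp, q, hq, hpq⟩ := ih (n % m k ^ 2) (Nat.mod_lt _ hM)
    set D := n / m k ^ 2 with hD
    have hDlt : D < g * g := by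
      rw [hD, Nat.div_lt_iff_lt_mul hM, mul_comm, ← hm]
      exact hn
    refine ⟨p + D % g * m k ^ 2, ?_, q + D / g * (g * m k ^ 2), ?_, ?_⟩
    · show _ ∈ P k + _
      exact add_mem_add hp (mem_image_of_mem _ (mem_range.2 (Nat.mod_lt _ hg0)))
    · show _ ∈ Q k + _
      refine add_mem_add hq (mem_image_of_mem (fun d => d * (2 ^ (k + 1) * m k ^ 2))
        (mem_range.2 ?_))
      exact (Nat.div_lt_iff_lt_mul hg0).2 hDlt
    · have e1 := Nat.mod_add_div n (m k ^ 2)
      have e2 := Nat.mod_add_div D g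
      calc p + D % g * m k ^ 2 + (q + D / g * (g * m k ^ 2))
          = (p + q) + m k ^ 2 * (D % g + g * (D / g)) := by ring
        _ = n % m k ^ 2 + m k ^ 2 * D := by rw [hpq, e2]
        _ = n := e1

theorem add_lt (k : ℕ) : ∀ p ∈ P k, ∀ q ∈ Q k, p + q < m k ^ 2 := by
  induction k with
  | zero =>
    intro p hp q hq
    have h1 : p = 0 := by simpa [P] using hp
    have h2 : q = 0 := by simpa [Q] using hq
    have : m 0 = 1 := rfl
    rw [this, h1, h2]; norm_num
  | succ k ih =>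
    intro p hp q hq
    obtain ⟨p₀, hp₀, x, hx, rfl⟩ := mem_add.1 hp
    obtain ⟨q₀, hq₀, y, hy, rfl⟩ := mem_add.1 hq
    obtain ⟨d, hd, rfl⟩ := mem_image.1 hx
    obtain ⟨e, he, rfl⟩ := mem_image.1 hy
    have h1 := ih p₀ hp₀ q₀ hq₀
    rw [mem_range] at hd he
    set g := 2 ^ (k + 1) with hg
    have hm : m (k + 1) ^ 2 = m k ^ 2 * (g * g) := by
      show (m k * 2 ^ (k + 1)) ^ 2 = _
      rw [hg]; ring
    rw [hm]
    have h2 : d + g * e + 1 ≤ g * g := by
      have : g * (e + 1) ≤ g * g := Nat.mul_le_mul_left _ he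
      nlinarith
    calc p₀ + d * m k ^ 2 + (q₀ + e * (g * m k ^ 2))
        = (p₀ + q₀) + m k ^ 2 * (d + g * e) := by ring
      _ < m k ^ 2 + m k ^ 2 * (d + g * e) := by omega
      _ = m k ^ 2 * (d + g * e + 1) := by ring
      _ ≤ m k ^ 2 * (g * g) := Nat.mul_le_mul_left _ h2

theorem unique_sum (k : ℕ) : ∀ p ∈ P k, ∀ q ∈ Q k, ∀ p' ∈ P k, ∀ q' ∈ Q k,
    p + q = p' + q' → p = p' ∧ q = q' := by
  induction k with
  | zero =>
    intro p hp q hq p' hp' q' hq' _
    have h1 : p = 0 := by simpa [P] using hp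
    have h2 : q = 0 := by simpa [Q] using hq
    have h3 : p' = 0 := by simpa [P] using hp'
    have h4 : q' = 0 := by simpa [Q] using hq'
    exact ⟨h1.trans h3.symm, h2.trans h4.symm⟩
  | succ k ih =>
    intro p hp q hq p' hp' q' hq' h
    obtain ⟨p₀, hp₀, x, hx, rfl⟩ := mem_add.1 hp
    obtain ⟨q₀, hq₀, y, hy, rfl⟩ := mem_add.1 hq
    obtain ⟨d, hd, rfl⟩ := mem_image.1 hx
    obtain ⟨e, he, rfl⟩ := mem_image.1 hy
    obtain ⟨p₁, hp₁, x', hx', rfl⟩ := mem_add.1 hp'
    obtain ⟨q₁, hq₁, y', hy', rfl⟩ := mem_add.1 hq'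
    obtain ⟨d', hd', rfl⟩ := mem_image.1 hx'
    obtain ⟨e', he', rfl⟩ := mem_image.1 hy'
    rw [mem_range] at hd he hd' he'
    have h1 := add_lt k p₀ hp₀ q₀ hq₀
    have h2 := add_lt k p₁ hp₁ q₁ hq₁
    have hM : 0 < m k ^ 2 := pow_pos (m_pos k) 2
    set g := 2 ^ (k + 1) with hg
    have hg0 : 0 < g := by positivity
    have h3 : (p₀ + q₀) + m k ^ 2 * (d + g * e) = (p₁ + q₁) + m k ^ 2 * (d' + g * e') := by
      have e1 : p₀ + d * m k ^ 2 + (q₀ + e * (g * m k ^ 2)) =
        (p₀ + q₀) + m k ^ 2 * (d + g * e) := by ring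
      have e2 : p₁ + d' * m k ^ 2 + (q₁ + e' * (g * m k ^ 2)) =
        (p₁ + q₁) + m k ^ 2 * (d' + g * e') := by ring
      rw [← e1, ← e2]; exact h
    have h4 : p₀ + q₀ = p₁ + q₁ := by
      have := congrArg (· % m k ^ 2) h3
      simp only [Nat.add_mul_mod_self_left] at this
      rwa [Nat.mod_eq_of_lt h1, Nat.mod_eq_of_lt h2] at this
    obtain ⟨h5, h6⟩ := ih p₀ hp₀ q₀ hq₀ p₁ hp₁ q₁ hq₁ h4
    have h7 : d + g * e = d' + g * e' := by
      rw [h4] at h3
      exact Nat.eq_of_mul_eq_mul_left hM (by omega)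
    have h8 : d = d' := by
      have := congrArg (· % g) h7
      simp only [Nat.add_mul_mod_self_left] at this
      rwa [Nat.mod_eq_of_lt hd, Nat.mod_eq_of_lt hd'] at this
    have h9 : e = e' := by
      rw [h8] at h7
      exact Nat.eq_of_mul_eq_mul_left hg0 (by omega)
    rw [h5, h6, h8, h9]
    exact ⟨rfl, rfl⟩

theorem zero_mem_P (k : ℕ) : 0 ∈ P k := by
  induction k with
  | zero => simp [P]
  | succ k ih =>
    show 0 ∈ P k + _
    exact mem_add.2 ⟨0, ih, 0, mem_image.2 ⟨0, mem_range.2 (by positivity), by simp⟩, rfl⟩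

theorem zero_mem_Q (k : ℕ) : 0 ∈ Q k := by
  induction k with
  | zero => simp [Q]
  | succ k ih =>
    show 0 ∈ Q k + _
    exact mem_add.2 ⟨0, ih, 0, mem_image.2 ⟨0, mem_range.2 (by positivity), by simp⟩, rfl⟩

theorem P_mono : Monotone P := monotone_nat_of_le_succ fun k => by
  intro x hx
  show x ∈ P k + _
  exact mem_add.2 ⟨x, hx, 0, mem_image.2 ⟨0, mem_range.2 (by positivity), by simp⟩, rfl⟩

theorem Q_mono : Monotone Q := monotone_nat_of_le_succ fun k => by
  intro x hx
  show x ∈ Q k + _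
  exact mem_add.2 ⟨x, hx, 0, mem_image.2 ⟨0, mem_range.2 (by positivity), by simp⟩, rfl⟩

/-- elements of the infinite sets below `m k ^ 2` -/
theorem mem_P_of_lt (k j : ℕ) (x : ℕ) (hx : x ∈ P j) (hlt : x < m k ^ 2) : x ∈ P k := by
  rcases le_total j k with h | h
  · exact P_mono h hx
  · induction j, h using Nat.le_induction with
    | base => exact hx
    | succ j hj ih =>
      refine ih ?_
      obtain ⟨x₀, hx₀, y, hy, rfl⟩ := mem_add.1 hx
      obtain ⟨d, hd, rfl⟩ := mem_image.1 hy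
      rcases Nat.eq_zero_or_pos d with rfl | hd0
      · simpa using hx₀
      · exfalso
        have h1 : m k ^ 2 ≤ m j ^ 2 := Nat.pow_le_pow_left (m_mono hj) 2
        have h2 : m j ^ 2 ≤ d * m j ^ 2 := Nat.le_mul_of_pos_left _ hd0
        omega

theorem mem_Q_of_lt (k j : ℕ) (x : ℕ) (hx : x ∈ Q j) (hlt : x < m k ^ 2) : x ∈ Q k := by
  rcases le_total j k with h | h
  · exact Q_mono h hx
  · induction j, h using Nat.le_induction with
    | base => exact hx
    | succ j hj ih =>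
      refine ih ?_
      obtain ⟨x₀, hx₀, y, hy, rfl⟩ := mem_add.1 hx
      obtain ⟨d, hd, rfl⟩ := mem_image.1 hy
      rcases Nat.eq_zero_or_pos d with rfl | hd0
      · simpa using hx₀
      · exfalso
        have h1 : m k ^ 2 ≤ m j ^ 2 := Nat.pow_le_pow_left (m_mono hj) 2
        have h2 : m j ^ 2 ≤ d * (2 ^ (j + 1) * m j ^ 2) := by
          calc m j ^ 2 ≤ 2 ^ (j + 1) * m j ^ 2 := Nat.le_mul_of_pos_left _ (by positivity)
            _ ≤ _ := Nat.le_mul_of_pos_left _ hd0
        omega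

theorem card_PP (k : ℕ) : (P k + P k).card ≤ 2 ^ k * m k := by
  induction k with
  | zero => simp [P, m]
  | succ k ih =>
    have hsub : P (k + 1) + P (k + 1) ⊆
        (P k + P k) + (range (2 * 2 ^ (k + 1))).image (fun d => d * m k ^ 2) := by
      intro x hx
      obtain ⟨a, ha, b, hb, rfl⟩ := mem_add.1 hx
      obtain ⟨a₀, ha₀, y, hy, rfl⟩ := mem_add.1 ha
      obtain ⟨d, hd, rfl⟩ := mem_image.1 hy
      obtain ⟨b₀, hb₀, z, hz, rfl⟩ := mem_add.1 hb
      obtain ⟨e, he, rfl⟩ := mem_image.1 hz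
      rw [mem_range] at hd he
      refine mem_add.2 ⟨a₀ + b₀, add_mem_add ha₀ hb₀, (d + e) * m k ^ 2,
        mem_image_of_mem _ (mem_range.2 (by omega)), by ring⟩
    calc (P (k + 1) + P (k + 1)).card ≤ _ := card_le_card hsub
      _ ≤ (P k + P k).card * ((range (2 * 2 ^ (k + 1))).image (fun d => d * m k ^ 2)).card :=
          card_add_le
      _ ≤ (2 ^ k * m k) * (2 * 2 ^ (k + 1)) := by
          refine Nat.mul_le_mul ih (card_image_le.trans ?_)
          rw [card_range]
      _ = 2 ^ (k + 1) * m (k + 1) := by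
          show _ = 2 ^ (k + 1) * (m k * 2 ^ (k + 1))
          ring

theorem card_QQ (k : ℕ) : (Q k + Q k).card ≤ 2 ^ k * m k := by
  induction k with
  | zero => simp [Q, m]
  | succ k ih =>
    have hsub : Q (k + 1) + Q (k + 1) ⊆ (Q k + Q k) +
        (range (2 * 2 ^ (k + 1))).image (fun d => d * (2 ^ (k + 1) * m k ^ 2)) := by
      intro x hx
      obtain ⟨a, ha, b, hb, rfl⟩ := mem_add.1 hx
      obtain ⟨a₀, ha₀, y, hy, rfl⟩ := mem_add.1 ha
      obtain ⟨d, hd, rfl⟩ := mem_image.1 hy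
      obtain ⟨b₀, hb₀, z, hz, rfl⟩ := mem_add.1 hb
      obtain ⟨e, he, rfl⟩ := mem_image.1 hz
      rw [mem_range] at hd he
      refine mem_add.2 ⟨a₀ + b₀, add_mem_add ha₀ hb₀, (d + e) * (2 ^ (k + 1) * m k ^ 2),
        mem_image_of_mem (fun d => d * (2 ^ (k + 1) * m k ^ 2)) (mem_range.2 (by omega)),
        by ring⟩
    calc (Q (k + 1) + Q (k + 1)).card ≤ _ := card_le_card hsub
      _ ≤ (Q k + Q k).card *
          ((range (2 * 2 ^ (k + 1))).image (fun d => d * (2 ^ (k + 1) * m k ^ 2))).card :=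
          card_add_le
      _ ≤ (2 ^ k * m k) * (2 * 2 ^ (k + 1)) := by
          refine Nat.mul_le_mul ih (card_image_le.trans ?_)
          rw [card_range]
      _ = 2 ^ (k + 1) * m (k + 1) := by
          show _ = 2 ^ (k + 1) * (m k * 2 ^ (k + 1))
          ring

/-- the basis -/
def A : Set ℕ := {x | ∃ k, x ∈ P k ∨ x ∈ Q k}

theorem m_gt (n : ℕ) : n < m (n + 1) ^ 2 := by
  have h : ∀ n, n < m (n + 1) := by
    intro n
    induction n with
    | zero => simp [m]
    | succ n ih =>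
      show n + 1 < m (n + 1) * 2 ^ (n + 1 + 1)
      have h1 : 2 ≤ 2 ^ (n + 1 + 1) := by
        calc 2 = 2 ^ 1 := rfl
          _ ≤ _ := Nat.pow_le_pow_right (by norm_num) (by omega)
      nlinarith
  have := h n
  nlinarith

theorem rep_pos (n : ℕ) : 1 ≤ rep A n := by
  obtain ⟨p, hp, q, hq, h⟩ := exists_sum (n + 1) n (m_gt n)
  unfold rep
  rw [Nat.one_le_iff_ne_zero, ← Nat.pos_iff_ne_zero, Set.ncard_pos (rep_finite A n)]
  exact ⟨(p, q), ⟨n + 1, Or.inl hp⟩, ⟨n + 1, Or.inr hq⟩, h⟩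

/-- exactly two ordered representations outside of `(P + P) ∪ (Q + Q)` -/
theorem rep_eq_two (k n : ℕ) (hn0 : 0 < n) (hn : n < m k ^ 2) (h1 : n ∉ P k + P k)
    (h2 : n ∉ Q k + Q k) : rep A n = 2 := by
  obtain ⟨p, hp, q, hq, h⟩ := exists_sum k n hn
  have hpq : p ≠ q := by
    rintro rfl
    have := unique_sum k p hp 0 (zero_mem_Q k) 0 (zero_mem_P k) p hq (by omega)
    omega
  have key : {x : ℕ × ℕ | x.1 ∈ A ∧ x.2 ∈ A ∧ x.1 + x.2 = n} = {(p, q), (q, p)} := by
    ext ⟨a, b⟩
    simp only [Set.mem_ofPred_eq, Set.mem_insert_iff, Set.mem_singleton_iff, Prod.mk.injEq]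
    constructor
    · rintro ⟨⟨i, ha⟩, ⟨j, hb⟩, hab⟩
      have ha' : a < m k ^ 2 := by omega
      have hb' : b < m k ^ 2 := by omega
      rcases ha with ha | ha
      · have ha := mem_P_of_lt k i a ha ha'
        rcases hb with hb | hb
        · have hb := mem_P_of_lt k j b hb hb'
          exact absurd (hab ▸ add_mem_add ha hb) h1
        · have hb := mem_Q_of_lt k j b hb hb'
          left
          exact unique_sum k a ha b hb p hp q hq (by omega)
      · have ha := mem_Q_of_lt k i a ha ha'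
        rcases hb with hb | hb
        · have hb := mem_P_of_lt k j b hb hb'
          right
          have := unique_sum k b hb a ha p hp q hq (by omega)
          exact ⟨this.2, this.1⟩
        · have hb := mem_Q_of_lt k j b hb hb'
          exact absurd (hab ▸ add_mem_add ha hb) h2
    · rintro (⟨rfl, rfl⟩ | ⟨rfl, rfl⟩)
      · exact ⟨⟨k, Or.inl hp⟩, ⟨k, Or.inr hq⟩, h⟩
      · exact ⟨⟨k, Or.inr hq⟩, ⟨k, Or.inl hp⟩, by omega⟩
  unfold rep
  rw [key, Set.ncard_pair]
  intro h
  exact hpq (Prod.mk.injEq _ _ _ _ ▸ h).1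

theorem m_eq (k : ℕ) : m k ^ 2 = 2 ^ (k * (k + 1)) := by
  induction k with
  | zero => simp [m]
  | succ k ih =>
    show (m k * 2 ^ (k + 1)) ^ 2 = _
    rw [mul_pow, ih, ← pow_mul, ← pow_add]
    congr 1
    ring

/-- the number of exceptions -/
theorem exceptions_le (k x : ℕ) (hx : x < m k ^ 2) :
    ((Icc 1 x).filter (fun n => rep A n ≠ 2)).card ≤ 2 * (2 ^ k * m k) := by
  classical
  have hsub : (Icc 1 x).filter (fun n => rep A n ≠ 2) ⊆ (P k + P k) ∪ (Q k + Q k) := by
    intro n hn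
    rw [mem_filter, mem_Icc] at hn
    by_contra h
    rw [mem_union, not_or] at h
    exact hn.2 (rep_eq_two k n (by omega) (by omega) h.1 h.2)
  calc _ ≤ _ := card_le_card hsub
    _ ≤ (P k + P k).card + (Q k + Q k).card := card_union_le _ _
    _ ≤ 2 ^ k * m k + 2 ^ k * m k := add_le_add (card_PP k) (card_QQ k)
    _ = _ := by ring

/-- the final bound -/
theorem exceptions_bound (x : ℕ) (hx : 1 ≤ x) :
    (((Icc 1 x).filter (fun n => rep A n ≠ 2)).card : ℝ) ≤
      16 * (Real.sqrt x * Real.exp (2 * Real.sqrt (Real.log x))) := by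
  -- choose k with m k ^ 2 ≤ x < m (k+1) ^ 2
  have hex : ∃ k, x < m (k + 1) ^ 2 := ⟨x, m_gt x⟩
  classical
  set k := Nat.find hex with hk
  have h1 : x < m (k + 1) ^ 2 := Nat.find_spec hex
  have h2 : m k ^ 2 ≤ x := by
    rcases Nat.eq_zero_or_pos k with h0 | h0
    · rw [h0]; simp [m]; omega
    · have := Nat.find_min hex (m := k - 1) (by omega)
      rw [not_lt] at this
      have e : k - 1 + 1 = k := by omega
      rwa [e] at this
  have h3 := exceptions_le (k + 1) x h1
  have h4 : (((Icc 1 x).filter (fun n => rep A n ≠ 2)).card : ℝ) ≤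
      2 * (2 ^ (k + 1) * (m k * 2 ^ (k + 1))) := by
    have : (((Icc 1 x).filter (fun n => rep A n ≠ 2)).card : ℝ) ≤
      ((2 * (2 ^ (k + 1) * m (k + 1)) : ℕ) : ℝ) := by exact_mod_cast h3
    refine this.trans (le_of_eq ?_)
    show ((2 * (2 ^ (k + 1) * (m k * 2 ^ (k + 1))) : ℕ) : ℝ) = _
    push_cast
    ring
  have h5 : (m k : ℝ) ≤ Real.sqrt x := by
    refine Real.le_sqrt_of_sq_le ?_
    exact_mod_cast h2
  have h6 : (4 : ℝ) ^ k ≤ Real.exp (2 * Real.sqrt (Real.log x)) := by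
    have h7 : ((k : ℝ) * Real.log 2) ≤ Real.sqrt (Real.log x) := by
      refine Real.le_sqrt_of_sq_le ?_
      have h8 : (2 : ℝ) ^ (k * (k + 1)) ≤ x := by
        have := m_eq k
        rw [this] at h2
        exact_mod_cast h2
      have h9 : ((k * (k + 1) : ℕ) : ℝ) * Real.log 2 ≤ Real.log x := by
        rw [← Real.log_pow]
        exact Real.log_le_log (by positivity) h8
      push_cast at h9
      have hlog2 : 0 < Real.log 2 := Real.log_pos (by norm_num)
      have hlog2' : Real.log 2 ≤ 1 := by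
        have := Real.log_two_lt_d9
        linarith
      have hk0 : (0 : ℝ) ≤ k := by positivity
      calc ((k : ℝ) * Real.log 2) ^ 2 = (k * k) * Real.log 2 * Real.log 2 := by ring
        _ ≤ (k * k) * Real.log 2 * 1 := by gcongr
        _ ≤ k * (k + 1) * Real.log 2 := by nlinarith [mul_nonneg hk0 hlog2.le]
        _ ≤ Real.log x := h9
    have h8 : (4 : ℝ) ^ k = Real.exp (2 * (k * Real.log 2)) := by
      have : (4 : ℝ) = Real.exp (2 * Real.log 2) := by
        rw [two_mul, Real.exp_add, Real.exp_log (by norm_num)]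
        norm_num
      rw [this, ← Real.exp_nat_mul]
      congr 1
      ring
    rw [h8]
    exact Real.exp_le_exp.2 (by linarith)
  calc (((Icc 1 x).filter (fun n => rep A n ≠ 2)).card : ℝ)
      ≤ 2 * (2 ^ (k + 1) * (m k * 2 ^ (k + 1))) := h4
    _ = 8 * (m k * 4 ^ k) := by
        have : (4 : ℝ) ^ k = 2 ^ k * 2 ^ k := by rw [← mul_pow]; norm_num
        rw [this]
        ring
    _ ≤ 8 * (Real.sqrt x * Real.exp (2 * Real.sqrt (Real.log x))) := by gcongr
    _ ≤ _ := by
        have : 0 ≤ Real.sqrt x * Real.exp (2 * Real.sqrt (Real.log x)) := by positivity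
        linarith

/-- a lower bound for every basis: the numbers `2 a` -/
theorem exceptions_ge (B : Set ℕ) (hB : ∃ n₀, ∀ n ≥ n₀, 1 ≤ rep B n) :
    ∃ c : ℝ, 0 < c ∧ ∃ x₀ : ℕ, ∀ x ≥ x₀,
      c * Real.sqrt x ≤ (((Icc 1 x).filter (fun n => rep B n ≠ 2)).card : ℝ) := by
  classical
  obtain ⟨n₀, hn₀⟩ := hB
  refine ⟨1 / 4, by norm_num, 16 * n₀ + 64, fun x hx => ?_⟩
  set y := x / 2 with hy
  -- elements of B up to y
  set S := (Icc 0 y).filter (fun a => a ∈ B) with hS
  have hcount : (Icc n₀ y).card ≤ S.card * S.card := by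
    rw [← card_product]
    refine card_le_card_of_surjOn (fun p => p.1 + p.2) ?_
    intro n hn
    have hn := mem_Icc.1 (mem_coe.1 hn)
    have h1 := hn₀ n hn.1
    unfold rep at h1
    rw [Nat.one_le_iff_ne_zero, ← Nat.pos_iff_ne_zero, Set.ncard_pos (rep_finite B n)] at h1
    obtain ⟨⟨a, b⟩, ha, hb, hab⟩ := h1
    simp only at ha hb hab
    refine ⟨(a, b), mem_coe.2 (mem_product.2 ⟨?_, ?_⟩), hab⟩
    · exact mem_filter.2 ⟨mem_Icc.2 ⟨Nat.zero_le _, by show a ≤ y; omega⟩, ha⟩
    · exact mem_filter.2 ⟨mem_Icc.2 ⟨Nat.zero_le _, by show b ≤ y; omega⟩, hb⟩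
  -- the number of representations of 2a is odd
  have hodd : ∀ a ∈ B, rep B (2 * a) ≠ 2 := by
    intro a ha h
    unfold rep at h
    have hfin := rep_finite B (2 * a)
    set F := hfin.toFinset with hF
    have hFc : F.card = 2 := by rw [← h, Set.ncard_eq_toFinset_card _ hfin]
    have hmem : (a, a) ∈ F := by
      rw [hF, Set.Finite.mem_toFinset]
      exact ⟨ha, ha, by simp only; omega⟩
    obtain ⟨z, hz, hza⟩ := exists_mem_ne (by omega : 1 < F.card) (a, a)
    have hz' := hz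
    rw [hF, Set.Finite.mem_toFinset] at hz'
    obtain ⟨hz1, hz2, hz3⟩ := hz'
    have hsw : (z.2, z.1) ∈ F := by
      rw [hF, Set.Finite.mem_toFinset]
      exact ⟨hz2, hz1, by simp only; omega⟩
    have hne : z.1 ≠ z.2 := by
      intro h5
      apply hza
      exact Prod.ext (by show z.1 = a; omega) (by show z.2 = a; omega)
    have hthree : ({(a, a), z, (z.2, z.1)} : Finset (ℕ × ℕ)) ⊆ F := by
      intro w hw
      simp only [mem_insert, mem_singleton] at hw
      rcases hw with rfl | rfl | rfl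
      · exact hmem
      · exact hz
      · exact hsw
    have hcard : ({(a, a), z, (z.2, z.1)} : Finset (ℕ × ℕ)).card = 3 := by
      rw [card_eq_three]
      refine ⟨(a, a), z, (z.2, z.1), hza.symm, ?_, ?_, rfl⟩
      · intro h5
        have := Prod.ext_iff.1 h5
        simp only at this
        omega
      · intro h5
        have := (Prod.ext_iff.1 h5).1
        exact hne this
    have := card_le_card hthree
    omega
  have hinj : S.card ≤ ((Icc 1 x).filter (fun n => rep B n ≠ 2)).card + 1 := by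
    have h1 : (S.erase 0).card ≤ ((Icc 1 x).filter (fun n => rep B n ≠ 2)).card := by
      refine card_le_card_of_injOn (fun a => 2 * a) ?_ ?_
      · intro a ha
        have ha := mem_erase.1 (mem_coe.1 ha)
        have ha2 := mem_filter.1 ha.2
        have ha3 := mem_Icc.1 ha2.1
        refine mem_coe.2 (mem_filter.2 ⟨mem_Icc.2 ⟨?_, ?_⟩, hodd a ha2.2⟩)
        · have := ha.1
          show 1 ≤ 2 * a
          omega
        · show 2 * a ≤ x
          omega
      · intro a _ b _ hab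
        simp only at hab
        omega
    have h2 := pred_card_le_card_erase (s := S) (a := 0)
    omega
  -- numbers
  rw [Nat.card_Icc] at hcount
  set e := ((Icc 1 x).filter (fun n => rep B n ≠ 2)).card with he
  have h3 : y + 1 - n₀ ≤ (e + 1) * (e + 1) := hcount.trans (Nat.mul_le_mul hinj hinj)
  have h4 : x ≤ 4 * ((e + 1) * (e + 1)) := by omega
  have h5 : (x : ℝ) ≤ 4 * ((e + 1) * (e + 1)) := by exact_mod_cast h4
  have h6 : Real.sqrt x ≤ 2 * (e + 1) := by
    rw [Real.sqrt_le_left (by positivity)]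
    nlinarith
  have h7 : (8 : ℝ) ≤ Real.sqrt x := by
    refine Real.le_sqrt_of_sq_le ?_
    have : (64 : ℝ) ≤ x := by exact_mod_cast (by omega : 64 ≤ x)
    linarith
  linarith

end Pool.Agent.Y940.EX
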